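import Mathlib
import Pool.Agent.H542R2.PMNum
import Pool.Agent.H542R2.PMWalk
import Pool.Agent.H542R2.PMFinal

/-!
Depth versus size for refutations whose lines are arbitrary functions of polynomial description
size.
-/

namespace Pool.Agent.Results.MP_e81270_lc.DepthVersusSize

/-- A clause over `N` variables: a finite set of literals; the literal `(x, s)` says that the
variable `x` has the value `s`. -/
abbrev Clause (N : ℕ) := Finset (Fin N × Bool)

/-- The assignment `z` satisfies the clause. -/
def Clause.Holds {N : ℕ} (z : Fin N → Bool) (c : Clause N) : Prop := ∃ l ∈ c, z l.1 = l.2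

/-- A dag-like refutation of the CNF `F` with `S` lines and depth at most `D`.  Every line is a
Boolean function from the set `A` of allowed lines; every line is semantically implied by one
clause of `F` or by its premises, which are at most `a` lines of smaller depth; some line is
unsatisfiable. -/
structure Refutation {N : ℕ} (F : Finset (Clause N)) (A : Finset ((Fin N → Bool) → Bool))
    (a S D : ℕ) where
  line : Fin S → (Fin N → Bool) → Bool
  mem : ∀ j, line j ∈ A
  prem : Fin S → Finset (Fin S)
  card_prem : ∀ j, (prem j).card ≤ a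
  depth : Fin S → ℕ
  depth_le : ∀ j, depth j ≤ D
  depth_lt : ∀ j, ∀ p ∈ prem j, depth p < depth j
  sound : ∀ j, (∃ c ∈ F, ∀ z, c.Holds z → line j z = true) ∨
    ∀ z, (∀ p ∈ prem j, line p z = true) → line j z = true
  final : ∃ j, ∀ z, line j z = false

open H542PM Finset

/-- There is `c > 0` such that for every `k` the following holds for all large `N`.  Let `A` be
any set of at most `2 ^ (N ^ k)` Boolean functions of `N` variables.  Then there is an
unsatisfiable CNF with `N` variables, polynomially many clauses and clauses of width `O(log N)`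
such that all refutations with `S` lines from `A`, at most `a ≤ N ^ k` premises per line and
depth `D` satisfy `D ≥ c N / log (a + 1)` and `D * log S ≥ c N ^ 2 / log (a + 1)`. -/
theorem result : ∃ c : ℝ, 0 < c ∧ ∀ k : ℕ, ∃ k' N0 : ℕ, ∀ N ≥ N0,
    ∀ A : Finset ((Fin N → Bool) → Bool), A.card ≤ 2 ^ (N ^ k) →
      ∃ F : Finset (Clause N), F.card ≤ N ^ k' ∧ (∀ cl ∈ F, cl.card ≤ k' * Nat.log 2 N) ∧
        (∀ z, ∃ cl ∈ F, ¬ cl.Holds z) ∧
        ∀ a S D : ℕ, 1 ≤ a → a ≤ N ^ k → Nonempty (Refutation F A a S D) →
          c * N ≤ D * Real.logb 2 (a + 1) ∧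
          c * (N : ℝ) ^ 2 ≤ D * Real.logb 2 (a + 1) * Real.logb 2 S := by
  refine ⟨1 / 6400000000000000, by norm_num, fun k => ?_⟩
  obtain ⟨k', N0, hN0⟩ := exists_good k
  obtain ⟨N1, hN1⟩ := ev_exp (k + 1)
  refine ⟨k', max (max N0 N1) 80000000, fun N hN A hA => ?_⟩
  have hNN0 : N0 ≤ N := (le_max_left _ _).trans ((le_max_left _ _).trans hN)
  have hNN1 : N1 ≤ N := (le_max_right _ _).trans ((le_max_left _ _).trans hN)
  have hN8 : 80000000 ≤ N := (le_max_right _ _).trans hN
  clear hN
  obtain ⟨F, μ, hF1, hF2, hF3, hg⟩ := hN0 N hNN0 A hA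
  have hcp : ∀ (cl : Clause N) (z : Fin N → Bool), cp cl z = true ↔ cl.Holds z :=
    fun cl z => cp_eq_true
  refine ⟨F, hF1, hF2, ?_, ?_⟩
  · intro z
    obtain ⟨cl, hcl, hz⟩ := hF3 z
    refine ⟨cl, hcl, fun h => ?_⟩
    rw [(hcp cl z).mpr h] at hz
    exact absurd hz (by simp)
  · rintro a S D ha1 haN ⟨⟨line, hmem, prem, hprem, dep, hdD, hdlt, hsound, j0, hfin⟩⟩
    have hB : ∀ j, line j ∈ (↑A : Set ((Fin N → Bool) → Bool)) := fun j => hmem j
    have hok : ∀ j, NodeOk {f | ∃ c ∈ F, f = cp c} line prem j := by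
      intro j
      rcases hsound j with ⟨cl, hcl, h⟩ | h
      · left
        exact ⟨cp cl, ⟨cl, hcl, rfl⟩, fun z hz => h z ((hcp cl z).mp hz)⟩
      · right
        exact h
    have hroot : 1 / 2 ≤ ms μ [(line j0, false)] := by
      have h1 : ms μ [(line j0, false)] = ∑ z, μ z := by
        unfold ms
        congr 1
        ext z
        simp [mem_pts, hfin]
      rw [h1]
      exact hg.tot
    have hNk : 1 ≤ N ^ k := Nat.one_le_pow _ _ (by omega)
    have hqa : a + 2 ≤ N ^ (k + 2) := by
      have h1 : N ^ (k + 2) = N ^ k * N * N := by ring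
      rw [h1]
      have h2 : N ^ k * 4 ≤ N ^ k * N * N := by
        rw [mul_assoc]
        apply Nat.mul_le_mul_left
        nlinarith
      omega
    have hη1 : (2 : ℝ) ^ (-((N : ℝ) / 10000000)) ≤ 1 / 4 := by
      have h1 : (2 : ℝ) ^ (-((N : ℝ) / 10000000)) ≤ (2 : ℝ) ^ (-2 : ℝ) := by
        apply Real.rpow_le_rpow_of_exponent_le (by norm_num)
        have : (80000000 : ℝ) ≤ N := by exact_mod_cast hN8
        linarith
      have h2 : (2 : ℝ) ^ (-2 : ℝ) = 1 / 4 := by
        rw [Real.rpow_neg (by norm_num)]
        norm_num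
      rw [h2] at h1
      exact h1
    have hS2 : 2 ≤ S := by
      rcases hok j0 with h | h
      · exfalso
        have h1 := leaf_bound hg (by omega) hB h
        linarith
      · have h1 : (prem j0).Nonempty := by
          by_contra hne
          rw [not_nonempty_iff_eq_empty] at hne
          have h2 := h (fun _ => false) (by rw [hne]; simp)
          rw [hfin] at h2
          exact absurd h2 (by simp)
        obtain ⟨p, hp⟩ := h1
        have h2 := hdlt j0 p hp
        have h3 : p ≠ j0 := by rintro rfl; exact lt_irrefl _ h2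
        have h4 : 1 < Fintype.card (Fin S) := Fintype.one_lt_card_iff.mpr ⟨p, j0, h3⟩
        rw [Fintype.card_fin] at h4
        exact h4
    apply num_dag hN8 ha1 haN (hN1 N hNN1) (by exact_mod_cast hS2)
    · exact hroot.trans (depth_bound hg hB hprem hqa hok hdlt D j0 (hdD j0))
    · intro l d hq hDd
      have h1 := dag_bound hg hB ha1 hprem hok hdlt hq d j0 ((hdD j0).trans hDd)
      rw [Fintype.card_fin] at h1
      exact hroot.trans h1

end Pool.Agent.Results.MP_e81270_lc.DepthVersusSize
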