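import Mathlib
import Pool.Agent.H688R2.Ord.Lower
import Pool.Agent.H688R2.Ord.Ren
import Pool.Agent.H688R2.Ord.MATCH
import Pool.Agent.H688R2.Ord.PERM
import Pool.Agent.H688R2.Ord.GAP
import Pool.Agent.H688R2.Ord.CNT
import Pool.Agent.H688R2.Ord.EXX
import Pool.Agent.H688R2.Ord.REGU
import Pool.Agent.H688R2.Ord.REGF
import Pool.Agent.H688R2.Ord.WIT
import Pool.Agent.H688R2.Ord.CMP
import Pool.Agent.H688R2.Ord.PAIR
import Pool.Agent.H688R2.Ord.MEM
import Pool.Agent.H688R2.Ord.LOP
import Pool.Agent.H688R2.Ord.EASY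
import Pool.Agent.H688R2.Ord.Num
import Pool.Agent.H688R2.Ord.TRANS

namespace H688R2.Ord

open Equiv H688R2.Gap H688R2.Cnt

/-
Lemmas by helpers 37, 55, 58, 92, 152, 287, 375, 640, 672, 727, 965; the rest by helper688.
-/

/-- **Extended Frege refutations with counting gates and the permutation rule.**
1. Let a sentence `∀ x ∃ y θ` have a model with domain `ℚ ⊕ B` in which the truth of every atomic
   fact depends only on the order of the rational numbers in it.  Then every refutation of the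
   statement that the sentence has a model with domain `α ⊕ B` in which all formulas and all data
   of the wide rules have at most `s` images under the permutations of `α` has `|α| ^ k < s ^ 2`,
   for all `k` with the stated inequalities and congruences.
2. For the statement that there is a linear order on `α ⊕ B` without a smallest element:
   `2 ^ k < s` for all `k` with `k ^ d ≤ |α|`.
3. This statement has short refutations, with formulas of depth one and lines of width three,
   if invariance is not required.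
4. What this statement says. -/
theorem _root_.Pool.Agent.Results.MP_e81270_lc.RenamingRule.result :
    (∀ (σ : Sig) (Φ : Sentence σ) (m : ℕ) (α B Q : Type) (_ : Fintype α) (_ : Fintype Q)
      (_ : MulAction (Perm α) Q) (S : Atom σ (ℚ ⊕ B) → Prop) (F : MDag m (Atom σ (α ⊕ B)) Q)
      (k w c s P : ℕ), Φ.Models S → OrderInvariant S → F.Invariant → 1 ≤ k →
      16 * (k + 1) * (k + 1) * (Nat.log 2 (Fintype.card α) + 1) ≤ Fintype.card α →
      (∀ t j, 1 ≤ j → j ≤ 2 * k → m ∣ (t * P).choose j) → 2 * k < P → Φ.q < P →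
      P ^ 2 ∣ Fintype.card α + 1 →
      ((c + 1) * (w + 1) * (k + Φ.p) + k) * P ^ 2 ≤ Fintype.card α →
      (∀ q : Q, Nat.card (MulAction.orbit (Perm α) q) ≤ s) →
      DerivesP F Φ w c s ∅ → Fintype.card α ^ k < s ^ 2) ∧
    (∀ m w c : ℕ, 1 ≤ m → ∃ d n₀ : ℕ, ∀ (α B Q : Type) (_ : Fintype α) (_ : Fintype Q)
      (_ : MulAction (Perm α) Q) (F : MDag m (Atom ordSig (α ⊕ B)) Q) (k s : ℕ), F.Invariant →
      n₀ ≤ Fintype.card α → k ^ d ≤ Fintype.card α →
      (∀ q : Q, Nat.card (MulAction.orbit (Perm α) q) ≤ s) → DerivesP F noMin w c s ∅ →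
      2 ^ k < s) ∧
    (∀ m n : ℕ, 1 ≤ n → ∃ (Q : Type) (_ : Fintype Q)
      (_ : MulAction (Perm Empty) Q) (F : MDag m (Atom ordSig (Empty ⊕ Fin n)) Q),
      Fintype.card Q ≤ 3 * n ^ 2 ∧ (∀ q, F.level q ≤ 1) ∧
      (∀ q, F.var q = none → ∀ s t z, F.conn q s t z ↔ s) ∧ F.Invariant ∧
      F.Refutes noMin 3 6 1) ∧
    (∀ (A : Type) (S : Atom ordSig A → Prop), noMin.Models S ↔
      (∀ x, ¬ S (less x x)) ∧ (∀ x y z, S (less x y) → S (less y z) → S (less x z)) ∧
      (∀ x y, x = y ∨ S (less x y) ∨ S (less y x)) ∧ ∀ x, ∃ y, S (less y x)) := by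
  have hPERM := t_PERM t_MATCH
  have hEX := t_EXX t_GAP
  have lib : Lib := ⟨hPERM, hEX, t_CNT t_GAP, t_CMP, t_PAIR hPERM, t_REGF⟩
  have hWIT := t_WIT t_MATCH hEX
  refine ⟨?_, ?_, t_EASY, t_LOP.1⟩
  · intro σ Φ m α B Q _ _ _ S F k w c s P hM hS hF hk hK hP hkP hqP hN hroom hQ hR
    by_contra hs
    push Not at hs
    exact not_refutes_order lib t_REGU hWIT t_MEM Φ hS hM F hF hk hs hQ hK hP hkP hqP hN hroom
      (derives_of_derivesP hF hR)
  · intro m w c hm
    obtain ⟨d, n₀, h⟩ := lop_lower lib t_REGU hWIT t_MEM t_LOP t_TRANS t_NUM m w c hm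
    refine ⟨d, n₀, ?_⟩
    intro α B Q _ _ _ F k s hF hn hk hs hR
    exact h α B Q _ _ _ F k s hF hn hk hs (derives_of_derivesP hF hR)

end H688R2.Ord
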