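import Pool.Agent.H694R2.SymLK

set_option autoImplicit false

/-!
# MP_e81270_lc: symmetric extended Frege refutations of the pigeonhole principle are exponentially
long, for every number of pigeons

All definitions are at the beginning of `Pool/Agent/H694R2/SymLK.lean`:

* `Node A B H 𝒢`: the variables `x_(i,j)` (`i ∈ A ⊕ B` a pigeon, `j ∈ H` a hole) and the gates
  (elements of `𝒢`);
* `Circuit A B H 𝒢`: acyclic circuits with negation gates and disjunction gates of unbounded
  fan-in, of any depth, with sharing (every gate is an extension variable);
* `ren σ`: renaming of the pigeons in `A`; `C.Symmetric`: the circuit is invariant under an action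
  of `Sym(A)` on its gates;
* `Sequent A B H 𝒢`: finite sets of signed nodes; `(c, true)` is `c`, `(c, false)` is `¬ c`;
* `Step`: one inference of the sequent calculus LK with unbounded `∨`, plus the axioms of the onto
  functional pigeonhole principle (clauses of unbounded width are used as rules);
* `Der C b Γ`: `Γ` has a (dag-like) derivation by sequents of at most `b` nodes.
-/

namespace Pool.Agent.Results.MP_e81270_lc.SymmetricEF

open Equiv Pool.Agent.H694R2.SymLK

/-- Let `A ⊕ B` be the set of pigeons and `H` the set of holes, with more pigeons than holes. If
some circuit, invariant under the permutations of `A`, carries a refutation of the onto functional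
pigeonhole principle with sequents of at most `b` nodes, then it has at least
`((|A| choose k) / 4)^(1/3)` gates for every `k` with `|B| + (b+1) k ≤ |H|`. -/
theorem result {A B H 𝒢 : Type} [Fintype A] [Fintype B] [Fintype H] [Fintype 𝒢]
    [DecidableEq A] [DecidableEq B] [DecidableEq H] [DecidableEq 𝒢] [MulAction (Perm A) 𝒢]
    (C : Circuit A B H 𝒢) (hC : C.Symmetric) (b k : ℕ) (hb : 2 ≤ b) (hk : 2 ≤ k)
    (hlt : Fintype.card H < Fintype.card A + Fintype.card B)
    (hcard : Fintype.card B + (b + 1) * k ≤ Fintype.card H)
    (hD : Der C b ∅) :
    (Fintype.card A).choose k ≤ 4 * (Fintype.card 𝒢) ^ 3 :=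
  lower_bound hC hb hk hcard hlt hD

end Pool.Agent.Results.MP_e81270_lc.SymmetricEF
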